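import Mathlib
set_option autoImplicit false

/-!
# The tree of a clause

The nodes `0, …, 17` are the leaves, `29` is the root of the whole tree. The number `i` is the
position of the selected literal.
-/

namespace Pool.Agent.X239.PCG

/-- the position of a leaf of the cycle, counted from the selected literal -/
def kk (i x : ℕ) : ℕ := (x + 12 - (2 * i + 1)) % 6

/-- the parent of a node -/
def lp (i x : ℕ) : ℕ :=
  if x < 6 then
    (if kk i x ≤ 1 then 20 else if kk i x = 2 then 19 else if kk i x = 3 then 21 else 22)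
  else if x < 18 then 23 + 2 * ((x - 6) / 4) + x % 2
  else if x = 18 then 29
  else if x = 19 then 18
  else if x = 20 then 19
  else if x = 21 then 18
  else if x = 22 then 21
  else if x < 29 then
    (if ((x - 23) / 2 + 3 - i) % 3 = 0 then 20 else if ((x - 23) / 2 + 3 - i) % 3 = 1 then 18
      else 22)
  else 29

/-- the length of the edge to the parent -/
def lw (i x : ℕ) : ℕ :=
  if x < 6 then
    (if kk i x = 0 then 21 else if kk i x = 1 then 17 else if kk i x = 2 then 18
      else if kk i x = 3 then 18 else if kk i x = 4 then 17 else 21)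
  else if x < 18 then 21
  else if x = 18 then 1
  else if x = 19 then 1
  else if x = 20 then 3
  else if x = 21 then 1
  else if x = 22 then 3
  else 4

/-- the height -/
def lr (x : ℕ) : ℕ :=
  if x < 18 then 5 else if x = 18 then 1 else if x = 19 then 2 else if x = 21 then 2
    else if x = 20 then 3 else if x = 22 then 3 else if x < 29 then 4 else 0

/-- distances -/
def dd (i : ℕ) : ℕ → ℕ → ℕ → ℕ
  | 0, _, _ => 0
  | f + 1, x, y => if x = y then 0 else if lr y ≤ lr x then lw i x + dd i f (lp i x) y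
    else lw i y + dd i f x (lp i y)

/-- distances -/
def ds (i x y : ℕ) : ℕ := dd i 12 x y

theorem ds_self (i x : ℕ) : ds i x x = 0 := by
  unfold ds dd
  rw [if_pos rfl]

theorem lp_le : ∀ i < 3, ∀ x < 29, lp i x ≤ 29 ∧ lr (lp i x) < lr x := by decide +kernel

theorem lr_root : lr 29 = 0 := by decide +kernel

theorem lw_pos : ∀ i < 3, ∀ x < 29, 0 < lw i x := by decide +kernel

theorem ds_symm : ∀ i < 3, ∀ x < 30, ∀ y < 30, ds i x y = ds i y x := by decide +kernel

theorem ds_rec : ∀ i < 3, ∀ x < 29, ∀ y < 30, x ≠ y → lr y ≤ lr x →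
    ds i x y = lw i x + ds i (lp i x) y := by decide +kernel

/-- every inner node has a child -/
theorem child : ∀ i < 3, ∀ x < 29, 18 ≤ x → ∃ y < 29, lp i y = x := by decide +kernel

/-- the leaves have no children -/
theorem lp_ge : ∀ i < 3, ∀ x < 29, 18 ≤ lp i x := by decide +kernel

/-! ### The constraints -/

/-- the pairs which have to be adjacent -/
def locE : List (ℕ × ℕ) :=
  [(0, 2), (0, 3), (0, 4), (1, 3), (1, 4), (1, 5), (2, 4), (2, 5), (3, 5),
    (1, 6), (1, 7), (1, 8), (1, 9), (2, 6), (2, 7), (2, 8), (2, 9), (6, 8), (7, 9),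
    (3, 10), (3, 11), (3, 12), (3, 13), (4, 10), (4, 11), (4, 12), (4, 13), (10, 12), (11, 13),
    (5, 14), (5, 15), (5, 16), (5, 17), (0, 14), (0, 15), (0, 16), (0, 17), (14, 16), (15, 17)]

/-- the pairs which must not be adjacent -/
def locS : List (ℕ × ℕ) :=
  [(0, 1), (1, 2), (2, 3), (3, 4), (4, 5), (5, 0),
    (6, 7), (7, 8), (8, 9), (9, 6), (10, 11), (11, 12), (12, 13), (13, 10),
    (14, 15), (15, 16), (16, 17), (17, 14)]

theorem locE_lt : ∀ p ∈ locE, p.1 < 18 ∧ p.2 < 18 ∧ p.1 ≠ p.2 := by decide +kernel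

theorem locS_lt : ∀ p ∈ locS, p.1 < 18 ∧ p.2 < 18 ∧ p.1 ≠ p.2 := by decide +kernel

theorem loc_disj : ∀ p ∈ locE, ∀ q ∈ locS, p ≠ q ∧ p ≠ (q.2, q.1) := by decide +kernel

theorem ds_locE : ∀ i < 3, ∀ p ∈ locE, 40 ≤ ds i p.1 p.2 ∧ ds i p.1 p.2 ≤ 48 := by
  decide +kernel

theorem ds_locS : ∀ i < 3, ∀ p ∈ locS, ds i p.1 p.2 < 40 ∨ 48 < ds i p.1 p.2 := by
  decide +kernel

/-- distances to the root -/
theorem ds_root1 : ∀ i < 3, ∀ s < 2, ds i (2 * i + s) 29 = 26 := by decide +kernel

/-- distances to the root -/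
theorem ds_root2 : ∀ i < 3, ∀ i' < 3, ∀ s < 2, i' = i ∨
    (20 ≤ ds i (2 * i' + s) 29 ∧ ds i (2 * i' + s) 29 ≤ 22) := by
  decide +kernel

end Pool.Agent.X239.PCG
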