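import Pool.Agent.X239.PCG.Defs
import Pool.Agent.X239.PCG.Loc
set_option autoImplicit false

/-!
# The instance of a formula
-/

namespace Pool.Agent.X239.PCG

open Pool.Agent.NPC (Lit Distinct3 Bounded3 SAT3)

/-- clauses -/
abbrev Cl : Type := Lit ℕ × Lit ℕ × Lit ℕ

/-- the literals of a clause -/
def lit (c : Cl) (i : ℕ) : Lit ℕ := if i = 0 then c.1 else if i = 1 then c.2.1 else c.2.2

/-- opposite literals -/
def opp (l l' : Lit ℕ) : Bool := decide (l.2 = l'.2) && !(decide (l.1 = l'.1))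

/-- the literals `i` of clause `j` and `i'` of clause `k` are opposite -/
def conf (φ : List Cl) (j k i i' : ℕ) : Bool :=
  (φ[j]?).elim false fun c => (φ[k]?).elim false fun c' => opp (lit c i) (lit c' i')

/-- the edges between two clauses -/
def cross (j k i i' : ℕ) : List (ℕ × ℕ) :=
  (List.range 2).flatMap fun s => (List.range 2).map fun s' =>
    (18 * j + (2 * i + s), 18 * k + (2 * i' + s'))

/-- the edges -/
def EE (φ : List Cl) : List (ℕ × ℕ) :=
  ((List.range φ.length).flatMap fun j => locE.map fun p => (18 * j + p.1, 18 * j + p.2)) ++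
  (List.range φ.length).flatMap fun j => (List.range φ.length).flatMap fun k =>
    (List.range 3).flatMap fun i => (List.range 3).flatMap fun i' =>
      if conf φ j k i i' = true then cross j k i i' else []

/-- the forbidden pairs -/
def SS (φ : List Cl) : List (ℕ × ℕ) :=
  (List.range φ.length).flatMap fun j => locS.map fun p => (18 * j + p.1, 18 * j + p.2)

/-- the number of vertices -/
abbrev nn (φ : List Cl) : ℕ := 18 * φ.length + 1

variable {φ : List Cl}

theorem mem_EE {u v : ℕ} : (u, v) ∈ EE φ ↔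
    (∃ j < φ.length, ∃ p ∈ locE, u = 18 * j + p.1 ∧ v = 18 * j + p.2) ∨
    ∃ j < φ.length, ∃ k < φ.length, ∃ i < 3, ∃ i' < 3, conf φ j k i i' = true ∧
      ∃ s < 2, ∃ s' < 2, u = 18 * j + (2 * i + s) ∧ v = 18 * k + (2 * i' + s') := by
  unfold EE cross
  simp only [List.mem_append, List.mem_flatMap, List.mem_range, List.mem_map]
  refine or_congr ?_ ?_
  · constructor
    · rintro ⟨j, hj, p, hp, h⟩
      rw [Prod.mk.injEq] at h
      exact ⟨j, hj, p, hp, h.1.symm, h.2.symm⟩
    · rintro ⟨j, hj, p, hp, h1, h2⟩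
      exact ⟨j, hj, p, hp, by rw [h1, h2]⟩
  · constructor
    · rintro ⟨j, hj, k, hk, i, hi, i', hi', h⟩
      by_cases hc : conf φ j k i i' = true
      · rw [if_pos hc] at h
        simp only [List.mem_flatMap, List.mem_range, List.mem_map] at h
        obtain ⟨s, hs, s', hs', h⟩ := h
        rw [Prod.mk.injEq] at h
        exact ⟨j, hj, k, hk, i, hi, i', hi', hc, s, hs, s', hs', h.1.symm, h.2.symm⟩
      · rw [if_neg hc] at h
        simp at h
    · rintro ⟨j, hj, k, hk, i, hi, i', hi', hc, s, hs, s', hs', h1, h2⟩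
      refine ⟨j, hj, k, hk, i, hi, i', hi', ?_⟩
      rw [if_pos hc]
      simp only [List.mem_flatMap, List.mem_range, List.mem_map]
      exact ⟨s, hs, s', hs', by rw [h1, h2]⟩

theorem mem_SS {u v : ℕ} : (u, v) ∈ SS φ ↔
    ∃ j < φ.length, ∃ p ∈ locS, u = 18 * j + p.1 ∧ v = 18 * j + p.2 := by
  unfold SS
  simp only [List.mem_flatMap, List.mem_range, List.mem_map]
  constructor
  · rintro ⟨j, hj, p, hp, h⟩
    rw [Prod.mk.injEq] at h
    exact ⟨j, hj, p, hp, h.1.symm, h.2.symm⟩
  · rintro ⟨j, hj, p, hp, h1, h2⟩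
    exact ⟨j, hj, p, hp, by rw [h1, h2]⟩

theorem conf_iff {j k i i' : ℕ} (hj : j < φ.length) (hk : k < φ.length) :
    conf φ j k i i' = true ↔ (lit φ[j] i).2 = (lit φ[k] i').2 ∧ (lit φ[j] i).1 ≠ (lit φ[k] i').1 := by
  unfold conf opp
  rw [List.getElem?_eq_getElem hj, List.getElem?_eq_getElem hk]
  simp

theorem lit_ne (hd : Distinct3 φ) {j i i' : ℕ} (hj : j < φ.length) (hi : i < 3) (hi' : i' < 3)
    (h : i ≠ i') : (lit φ[j] i).2 ≠ (lit φ[j] i').2 := by
  have h1 := hd φ[j] (List.getElem_mem hj)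
  unfold lit
  have c1 : i = 0 ∨ i = 1 ∨ i = 2 := by omega
  have c2 : i' = 0 ∨ i' = 1 ∨ i' = 2 := by omega
  rcases c1 with rfl | rfl | rfl <;> rcases c2 with rfl | rfl | rfl <;> simp <;> tauto

/-- there are no opposite literals in a clause -/
theorem conf_ne (hd : Distinct3 φ) {j k i i' : ℕ} (hj : j < φ.length) (hk : k < φ.length)
    (hi : i < 3) (hi' : i' < 3) (h : conf φ j k i i' = true) : j ≠ k := by
  rintro rfl
  rw [conf_iff hj hk] at h
  by_cases hii : i = i'
  · subst hii
    exact h.2 rfl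
  · exact lit_ne hd hj hi hi' hii h.1

theorem EE_lt (hd : Distinct3 φ) {u v : ℕ} (h : (u, v) ∈ EE φ) :
    u < nn φ ∧ v < nn φ ∧ u ≠ v := by
  rw [mem_EE] at h
  unfold nn
  rcases h with ⟨j, hj, p, hp, rfl, rfl⟩ | ⟨j, hj, k, hk, i, hi, i', hi', hc, s, hs, s', hs', rfl, rfl⟩
  · have := locE_lt p hp
    omega
  · have := conf_ne hd hj hk hi hi' hc
    omega

theorem SS_lt {u v : ℕ} (h : (u, v) ∈ SS φ) : u < nn φ ∧ v < nn φ ∧ u ≠ v := by
  rw [mem_SS] at h
  unfold nn
  obtain ⟨j, hj, p, hp, rfl, rfl⟩ := h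
  have := locS_lt p hp
  omega

/-- no pair is in both lists -/
theorem EE_SS (hd : Distinct3 φ) {u v : ℕ} (h : (u, v) ∈ EE φ) :
    (u, v) ∉ SS φ ∧ (v, u) ∉ SS φ := by
  rw [mem_EE] at h
  rw [mem_SS, mem_SS]
  rcases h with ⟨j, hj, p, hp, rfl, rfl⟩ | ⟨j, hj, k, hk, i, hi, i', hi', hc, s, hs, s', hs', rfl, rfl⟩
  · have h1 := locE_lt p hp
    constructor
    · rintro ⟨k, hk, q, hq, h2, h3⟩
      have h4 := locS_lt q hq
      have h5 := loc_disj p hp q hq
      apply h5.1
      have : j = k := by omega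
      subst this
      exact Prod.ext (by omega) (by omega)
    · rintro ⟨k, hk, q, hq, h2, h3⟩
      have h4 := locS_lt q hq
      have h5 := loc_disj p hp q hq
      apply h5.2
      have : j = k := by omega
      subst this
      exact Prod.ext (by simp only; omega) (by simp only; omega)
  · have h1 := conf_ne hd hj hk hi hi' hc
    constructor
    · rintro ⟨l, hl, q, hq, h2, h3⟩
      have h4 := locS_lt q hq
      omega
    · rintro ⟨l, hl, q, hq, h2, h3⟩
      have h4 := locS_lt q hq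
      omega

/-- the number of vertices is bounded by the number of edges -/
theorem nn_le (φ : List Cl) : nn φ ≤ (EE φ).length + 1 := by
  have h1 : ((List.range φ.length).flatMap fun j =>
      locE.map fun p => (18 * j + p.1, 18 * j + p.2)).length = φ.length * locE.length := by
    rw [List.length_flatMap]
    simp
  have h2 : 18 ≤ locE.length := by decide +kernel
  unfold nn EE
  rw [List.length_append, h1]
  nlinarith

theorem valid (hd : Distinct3 φ) :
    (∀ p ∈ EE φ ++ SS φ, p.1 < nn φ ∧ p.2 < nn φ ∧ p.1 ≠ p.2) ∧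
      pairsOf (nn φ) (SS φ) ⊆ (graphOf (nn φ) (EE φ))ᶜ.edgeSet := by
  constructor
  · rintro ⟨u, v⟩ h
    rw [List.mem_append] at h
    rcases h with h | h
    · exact EE_lt hd h
    · exact SS_lt h
  · rintro e ⟨u, v, rfl, h⟩
    rw [SimpleGraph.mem_edgeSet, SimpleGraph.compl_adj]
    refine ⟨fun h1 => (SS_lt h).2.2 (by rw [h1]), fun h1 => ?_⟩
    unfold graphOf at h1
    rw [SimpleGraph.fromRel_adj] at h1
    rcases h1.2 with h2 | h2
    · exact (EE_SS hd h2).1 h
    · exact (EE_SS hd h2).2 h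

end Pool.Agent.X239.PCG
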