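import Pool.Agent.NPC.Sat2
set_option autoImplicit false

/-!
# Pairwise compatibility graphs
-/

namespace Pool.Agent.X239.PCG

/-- `T` is a tree with positive weights `w` on its edges, and `leaf` is a bijection of `V` onto the
set of the leaves (the vertices of degree one) of `T`. -/
structure LeafTree {V W : Type} (T : SimpleGraph W) (w : Sym2 W → ℝ) (leaf : V → W) : Prop where
  tree : T.IsTree
  pos : ∀ e ∈ T.edgeSet, 0 < w e
  inj : Function.Injective leaf
  leaves : ∀ x, (∃! y, T.Adj x y) ↔ ∃ v, leaf v = x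

/-- The graph `PCG(T, dmin, dmax)`: two different leaves are adjacent if and only if the sum of the
weights on the path between them is at least `dmin` and at most `dmax`. -/
def pcg {V W : Type} (T : SimpleGraph W) (w : Sym2 W → ℝ) (leaf : V → W) (dmin dmax : ℝ) :
    SimpleGraph V where
  Adj u v := u ≠ v ∧ ∃ p : T.Walk (leaf u) (leaf v), p.IsPath ∧
    dmin ≤ (p.edges.map w).sum ∧ (p.edges.map w).sum ≤ dmax
  symm := ⟨fun u v h => by
    obtain ⟨h1, p, h2, h3, h4⟩ := h
    refine ⟨h1.symm, p.reverse, h2.reverse, ?_⟩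
    rw [SimpleGraph.Walk.edges_reverse, List.map_reverse, List.sum_reverse]
    exact ⟨h3, h4⟩⟩
  loopless := ⟨fun u h => h.1 rfl⟩

/-- The generalized problem: there is a pairwise compatibility graph on the vertices of `G` which
contains all edges of `G` and no pair of `S`. -/
def GenPCG {V : Type} (G : SimpleGraph V) (S : Set (Sym2 V)) : Prop :=
  ∃ (W : Type) (_ : Finite W) (T : SimpleGraph W) (w : Sym2 W → ℝ) (leaf : V → W)
    (dmin dmax : ℝ), LeafTree T w leaf ∧ 0 ≤ dmin ∧ dmin ≤ dmax ∧
    G ≤ pcg T w leaf dmin dmax ∧ Disjoint S (pcg T w leaf dmin dmax).edgeSet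

/-- the graph with the vertices `0, …, n - 1` and the edges in the list `E` -/
def graphOf (n : ℕ) (E : List (ℕ × ℕ)) : SimpleGraph (Fin n) :=
  SimpleGraph.fromRel fun u v => ((u : ℕ), (v : ℕ)) ∈ E

/-- the set of pairs in the list `S` -/
def pairsOf (n : ℕ) (S : List (ℕ × ℕ)) : Set (Sym2 (Fin n)) :=
  {e | ∃ u v : Fin n, e = s(u, v) ∧ ((u : ℕ), (v : ℕ)) ∈ S}

end Pool.Agent.X239.PCG
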