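import Pool.Agent.X239.PCG.Build
import Pool.Agent.H221R2.WTree
set_option autoImplicit false

/-!
# From a tree to a satisfying assignment
-/

namespace Pool.Agent.X239.PCG

open Pool.Agent.NPC (Lit Distinct3 Bounded3 SAT3)
open Pool.Agent.H221R2.WTree

/-- every weighted tree has a path metric -/
theorem wt_exists {W : Type} {T : SimpleGraph W} {w : Sym2 W → ℝ} (hT : T.IsTree)
    (hw : ∀ e ∈ T.edgeSet, 0 < w e) : ∃ D : W → W → ℝ, WT T w D := by
  refine ⟨fun x y => ((hT.existsUnique_path x y).choose.edges.map w).sum, hT, hw,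
    fun x y p hp => ?_⟩
  have h := (hT.existsUnique_path x y).unique hp (hT.existsUnique_path x y).choose_spec.1
  rw [← h]

/-- adjacency in terms of the path metric -/
theorem pcg_adj {V W : Type} {T : SimpleGraph W} {w : Sym2 W → ℝ} {leaf : V → W} {L U : ℝ}
    {D : W → W → ℝ} (h : WT T w D) (u v : V) :
    (pcg T w leaf L U).Adj u v ↔ u ≠ v ∧ L ≤ D (leaf u) (leaf v) ∧ D (leaf u) (leaf v) ≤ U := by
  constructor
  · rintro ⟨h1, p, h2, h3, h4⟩
    rw [h.path _ _ p h2]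
    exact ⟨h1, h3, h4⟩
  · rintro ⟨h1, h3, h4⟩
    obtain ⟨p, hp, _⟩ := h.tree.existsUnique_path (leaf u) (leaf v)
    rw [h.path _ _ p hp] at h3 h4
    exact ⟨h1, p, hp, h3, h4⟩

section Metric

variable {d : ℕ → ℕ → ℝ} {L U : ℝ}

/-- the four-point condition -/
structure FP (d : ℕ → ℕ → ℝ) : Prop where
  symm : ∀ x y, d x y = d y x
  four : ∀ x y z u, d x y + d z u ≤ d x z + d y u ∨ d x y + d z u ≤ d x u + d y z

/-- Forced short pairs. -/
theorem forced (h : FP d) {r s c0 c1 c2 c3 : ℕ}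
    (hr : ∀ c ∈ [c0, c1, c2, c3], d r c ≤ U ∧ d s c ≤ U) (h02 : L ≤ d c0 c2) (h13 : L ≤ d c1 c3)
    (h01 : d c0 c1 < L ∨ U < d c0 c1) (h12 : d c1 c2 < L ∨ U < d c1 c2)
    (h23 : d c2 c3 < L ∨ U < d c2 c3) (h30 : d c3 c0 < L ∨ U < d c3 c0)
    (hrs : d r s < L ∨ U < d r s) : d r s < L := by
  rcases hrs with hrs | hrs
  · exact hrs
  exfalso
  have key : ∀ a ∈ [c0, c1, c2, c3], ∀ b ∈ [c0, c1, c2, c3], ¬ U < d a b := by
    intro a ha b hb hab
    have h1 := hr a ha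
    have h2 := hr b hb
    rcases h.four r s a b with h3 | h3 <;> linarith
  have k01 := h01.resolve_right (key c0 (by simp) c1 (by simp))
  have k12 := h12.resolve_right (key c1 (by simp) c2 (by simp))
  have k23 := h23.resolve_right (key c2 (by simp) c3 (by simp))
  have k30 := h30.resolve_right (key c3 (by simp) c0 (by simp))
  have s1 := h.symm c0 c3
  have s2 := h.symm c2 c1
  rcases h.four c0 c2 c1 c3 with h3 | h3 <;> linarith

/-- A cycle of six short pairs has a short chord. -/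
theorem six (h : FP d) {a0 a1 a2 a3 a4 a5 : ℕ} (h01 : d a0 a1 < L) (h12 : d a1 a2 < L)
    (h23 : d a2 a3 < L) (h34 : d a3 a4 < L) (h45 : d a4 a5 < L) (h50 : d a5 a0 < L)
    (h02 : L ≤ d a0 a2) (h13 : L ≤ d a1 a3) (h24 : L ≤ d a2 a4) (h35 : L ≤ d a3 a5) : False := by
  have s1 := h.symm a1 a2
  have s2 := h.symm a4 a3
  have s3 := h.symm a0 a5
  have s4 := h.symm a3 a2
  rcases h.four a0 a2 a1 a3 with e1 | e1
  · linarith
  rcases h.four a2 a4 a3 a5 with e2 | e2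
  · linarith
  rcases h.four a0 a3 a2 a5 with e3 | e3 <;> linarith

/-- Two long pairs. -/
theorem two_long (h : FP d) {a b c e : ℕ} (h1 : d a c ≤ U) (h2 : d b e ≤ U) (h3 : d a e ≤ U)
    (h4 : d b c ≤ U) (h5 : U < d a b) (h6 : U < d c e) : False := by
  rcases h.four a b c e with h7 | h7 <;> linarith

end Metric

variable {φ : List Cl}

/-- some literal pair of a clause is long -/
theorem exists_long {d : ℕ → ℕ → ℝ} {L U : ℝ} (h : FP d)
    (hE : ∀ u v, (u, v) ∈ EE φ → L ≤ d u v ∧ d u v ≤ U)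
    (hS : ∀ u v, (u, v) ∈ SS φ → d u v < L ∨ U < d u v) {j : ℕ} (hj : j < φ.length) :
    ∃ i < 3, U < d (18 * j + (2 * i + 0)) (18 * j + (2 * i + 1)) := by
  have hE' : ∀ p ∈ locE, L ≤ d (18 * j + p.1) (18 * j + p.2) ∧
      d (18 * j + p.1) (18 * j + p.2) ≤ U := fun p hp =>
    hE _ _ (mem_EE.2 (Or.inl ⟨j, hj, p, hp, rfl, rfl⟩))
  have hS' : ∀ p ∈ locS, d (18 * j + p.1) (18 * j + p.2) < L ∨
      U < d (18 * j + p.1) (18 * j + p.2) := fun p hp =>
    hS _ _ (mem_SS.2 ⟨j, hj, p, hp, rfl, rfl⟩)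
  have f : ∀ r s c : ℕ, (∀ q < 4, (r, c + q) ∈ locE ∧ (s, c + q) ∈ locE) →
      (c, c + 2) ∈ locE → (c + 1, c + 3) ∈ locE → (c, c + 1) ∈ locS → (c + 1, c + 2) ∈ locS →
      (c + 2, c + 3) ∈ locS → (c + 3, c) ∈ locS → (r, s) ∈ locS →
      d (18 * j + r) (18 * j + s) < L := by
    intro r s c h1 h2 h3 h4 h5 h6 h7 h8
    refine forced (U := U) (c0 := 18 * j + c) (c1 := 18 * j + (c + 1)) (c2 := 18 * j + (c + 2))
      (c3 := 18 * j + (c + 3)) h ?_ (hE' _ h2).1 (hE' _ h3).1 (hS' _ h4) (hS' _ h5) (hS' _ h6)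
      (hS' _ h7) (hS' _ h8)
    intro x hx
    simp only [List.mem_cons, List.not_mem_nil, or_false] at hx
    rcases hx with rfl | rfl | rfl | rfl
    · exact ⟨(hE' _ (h1 0 (by norm_num)).1).2, (hE' _ (h1 0 (by norm_num)).2).2⟩
    · exact ⟨(hE' _ (h1 1 (by norm_num)).1).2, (hE' _ (h1 1 (by norm_num)).2).2⟩
    · exact ⟨(hE' _ (h1 2 (by norm_num)).1).2, (hE' _ (h1 2 (by norm_num)).2).2⟩
    · exact ⟨(hE' _ (h1 3 (by norm_num)).1).2, (hE' _ (h1 3 (by norm_num)).2).2⟩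
  have f12 := f 1 2 6 (by decide) (by decide) (by decide) (by decide) (by decide) (by decide)
    (by decide) (by decide)
  have f34 := f 3 4 10 (by decide) (by decide) (by decide) (by decide) (by decide) (by decide)
    (by decide) (by decide)
  have f50 := f 5 0 14 (by decide) (by decide) (by decide) (by decide) (by decide) (by decide)
    (by decide) (by decide)
  by_contra hc
  push Not at hc
  have g : ∀ i < 3, (2 * i, 2 * i + 1) ∈ locS →
      d (18 * j + (2 * i + 0)) (18 * j + (2 * i + 1)) < L := fun i hi hm =>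
    (hS' _ hm).resolve_right (not_lt.2 (hc i hi))
  exact six h (g 0 (by norm_num) (by decide)) f12 (g 1 (by norm_num) (by decide)) f34
    (g 2 (by norm_num) (by decide)) f50 (hE' (0, 2) (by decide)).1 (hE' (1, 3) (by decide)).1
    (hE' (2, 4) (by decide)).1 (hE' (3, 5) (by decide)).1

/-- two long pairs do not belong to opposite literals -/
theorem no_conf {d : ℕ → ℕ → ℝ} {L U : ℝ} (h : FP d)
    (hE : ∀ u v, (u, v) ∈ EE φ → L ≤ d u v ∧ d u v ≤ U) {j k i i' : ℕ} (hj : j < φ.length)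
    (hk : k < φ.length) (hi : i < 3) (hi' : i' < 3)
    (h1 : U < d (18 * j + (2 * i + 0)) (18 * j + (2 * i + 1)))
    (h2 : U < d (18 * k + (2 * i' + 0)) (18 * k + (2 * i' + 1))) : conf φ j k i i' ≠ true := by
  intro hc
  have key : ∀ s < 2, ∀ s' < 2, d (18 * j + (2 * i + s)) (18 * k + (2 * i' + s')) ≤ U :=
    fun s hs s' hs' =>
      (hE _ _ (mem_EE.2 (Or.inr ⟨j, hj, k, hk, i, hi, i', hi', hc, s, hs, s', hs', rfl, rfl⟩))).2
  exact two_long h (key 0 (by norm_num) 0 (by norm_num)) (key 1 (by norm_num) 1 (by norm_num))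
    (key 0 (by norm_num) 1 (by norm_num)) (key 1 (by norm_num) 0 (by norm_num)) h1 h2

/-- a satisfying assignment -/
theorem sat_of_metric {d : ℕ → ℕ → ℝ} {L U : ℝ} (h : FP d)
    (hE : ∀ u v, (u, v) ∈ EE φ → L ≤ d u v ∧ d u v ≤ U)
    (hS : ∀ u v, (u, v) ∈ SS φ → d u v < L ∨ U < d u v) : SAT3 φ := by
  classical
  let P : ℕ → Prop := fun x => ∃ (j : ℕ) (hj : j < φ.length), ∃ i < 3,
    lit φ[j] i = (true, x) ∧ U < d (18 * j + (2 * i + 0)) (18 * j + (2 * i + 1))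
  refine ⟨fun x => decide (P x), fun c hc => ?_⟩
  obtain ⟨j, hj, rfl⟩ := List.getElem_of_mem hc
  obtain ⟨i, hi, hlong⟩ := exists_long h hE hS hj
  have key : decide (P (lit φ[j] i).2) = (lit φ[j] i).1 := by
    cases hb : (lit φ[j] i).1 with
    | true =>
      rw [decide_eq_true_iff]
      exact ⟨j, hj, i, hi, Prod.ext hb rfl, hlong⟩
    | false =>
      rw [decide_eq_false_iff_not]
      rintro ⟨k, hk, i', hi', h1, h2⟩
      refine no_conf h hE hj hk hi hi' hlong h2 ?_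
      rw [conf_iff hj hk, h1, hb]
      exact ⟨rfl, by simp⟩
  have c1 : i = 0 ∨ i = 1 ∨ i = 2 := by omega
  rcases c1 with rfl | rfl | rfl
  · exact Or.inl key
  · exact Or.inr (Or.inl key)
  · exact Or.inr (Or.inr key)

/-- the negative direction -/
theorem sat_of_gen (hd : Distinct3 φ)
    (h : GenPCG (graphOf (nn φ) (EE φ)) (pairsOf (nn φ) (SS φ))) : SAT3 φ := by
  obtain ⟨W, _, T, w, leaf, L, U, hT, -, -, hG, hS⟩ := h
  obtain ⟨D, hD⟩ := wt_exists hT.tree hT.pos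
  have hn : 0 < nn φ := by unfold nn; omega
  let lf : ℕ → W := fun u => if hu : u < nn φ then leaf ⟨u, hu⟩ else leaf ⟨0, hn⟩
  have hlf : ∀ {u : ℕ} (hu : u < nn φ), lf u = leaf ⟨u, hu⟩ := fun {u} hu => dif_pos hu
  refine sat_of_metric (d := fun u v => D (lf u) (lf v)) (L := L) (U := U)
    ⟨fun x y => hD.symm _ _, fun x y z u => hD.four' _ _ _ _⟩ ?_ ?_
  · intro u v huv
    obtain ⟨hu, hv, hne⟩ := EE_lt hd huv
    simp only [hlf hu, hlf hv]
    have h1 : (graphOf (nn φ) (EE φ)).Adj ⟨u, hu⟩ ⟨v, hv⟩ := by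
      unfold graphOf
      rw [SimpleGraph.fromRel_adj]
      exact ⟨fun h => hne (congrArg Fin.val h), Or.inl huv⟩
    exact ((pcg_adj hD _ _).1 (hG h1)).2
  · intro u v huv
    obtain ⟨hu, hv, hne⟩ := SS_lt huv
    simp only [hlf hu, hlf hv]
    have h1 : ¬ (pcg T w leaf L U).Adj ⟨u, hu⟩ ⟨v, hv⟩ := by
      intro h2
      exact Set.disjoint_left.1 hS ⟨⟨u, hu⟩, ⟨v, hv⟩, rfl, huv⟩
        ((SimpleGraph.mem_edgeSet _).2 h2)
    rw [pcg_adj hD] at h1
    by_contra hc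
    push Not at hc
    exact h1 ⟨fun h => hne (congrArg Fin.val h), hc.1, hc.2⟩

end Pool.Agent.X239.PCG
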