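import Pool.Agent.X56.ParentTree
import Pool.Agent.H221R2.WTree
set_option autoImplicit false

/-!
# The path metric of a rooted tree
-/

namespace Pool.Agent.X239.PCG

open Pool.Agent.X56 Pool.Agent.H221R2.WTree

variable {V : Type} {r : V} {par : V → V} {rk : V → ℕ} {h : ∀ v, v ≠ r → rk (par v) < rk v}

/-- After a step down, a path only goes down. -/
theorem down {u : V} : ∀ {x : V} (q : (parentGraph r par rk h).Walk u x), u ≠ r → q.IsPath →
    par u ∉ q.support → rk u ≤ rk x := by
  intro x q
  induction q with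
  | nil => intro _ _ _; exact le_rfl
  | @cons a b c hab q ih =>
    intro ha hp hn
    rw [SimpleGraph.Walk.cons_isPath_iff] at hp
    rw [SimpleGraph.Walk.support_cons, List.mem_cons, not_or] at hn
    rw [parentGraph_adj] at hab
    rcases hab with ⟨_, h2⟩ | ⟨h1, h2⟩
    · exact absurd (h2 ▸ q.start_mem_support) hn.2
    · have h3 := ih h1 hp.1 (by rw [h2]; exact hp.2)
      have h4 := h b h1
      rw [h2] at h4
      omega

/-- the first step of a path from a vertex which is not higher than the end -/
theorem first_step {x u y : V} (hxu : (parentGraph r par rk h).Adj x u)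
    (q : (parentGraph r par rk h).Walk u y) (hp : (SimpleGraph.Walk.cons hxu q).IsPath)
    (hr : rk y ≤ rk x) : x ≠ r ∧ par x = u := by
  have h0 := hxu
  rw [parentGraph_adj] at h0
  rw [SimpleGraph.Walk.cons_isPath_iff] at hp
  rcases h0 with h1 | ⟨h1, h2⟩
  · exact h1
  · have h3 := down q h1 hp.1 (by rw [h2]; exact hp.2)
    have h4 := h u h1
    rw [h2] at h4
    omega

/-- A function which satisfies the recursion is the path metric. -/
theorem path_metric {wt : V → ℝ} {w : Sym2 V → ℝ} (hw : ∀ v, v ≠ r → w s(v, par v) = wt v)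
    {D : V → V → ℝ} (h0 : ∀ x, D x x = 0) (hs : ∀ x y, D x y = D y x)
    (hrec : ∀ x y, x ≠ y → x ≠ r → rk y ≤ rk x → D x y = wt x + D (par x) y) :
    ∀ (n : ℕ) (x y : V) (p : (parentGraph r par rk h).Walk x y), p.IsPath → p.length = n →
      D x y = (p.edges.map w).sum := by
  intro n
  induction n with
  | zero =>
    intro x y p _ hl
    cases p with
    | nil => simp [h0]
    | cons _ _ => simp at hl
  | succ n ih =>
    have key : ∀ (x y : V) (p : (parentGraph r par rk h).Walk x y), p.IsPath →
        p.length = n + 1 → rk y ≤ rk x → D x y = (p.edges.map w).sum := by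
      intro x y p hp hl hr
      cases p with
      | nil => simp at hl
      | @cons _ u _ hxu q =>
        have h1 := first_step hxu q hp hr
        have h2 : x ≠ y := by
          intro hxy
          subst hxy
          rw [SimpleGraph.Walk.cons_isPath_iff] at hp
          exact hp.2 q.end_mem_support
        have hq : q.IsPath := ((SimpleGraph.Walk.cons_isPath_iff _ _).1 hp).1
        rw [SimpleGraph.Walk.length_cons] at hl
        rw [hrec x y h2 h1.1 hr, SimpleGraph.Walk.edges_cons, List.map_cons, List.sum_cons,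
          h1.2, ih u y q hq (by omega), ← hw x h1.1, h1.2]
    intro x y p hp hl
    rcases le_total (rk y) (rk x) with hr | hr
    · exact key x y p hp hl hr
    · rw [hs, key y x p.reverse hp.reverse (by rw [SimpleGraph.Walk.length_reverse, hl]) hr,
        SimpleGraph.Walk.edges_reverse, List.map_reverse, List.sum_reverse]

/-- the weights of the edges -/
noncomputable def wOf (r : V) (par : V → V) (wt : V → ℝ) (e : Sym2 V) : ℝ :=
  open Classical in
  if hv : ∃ v, v ≠ r ∧ e = s(v, par v) then wt hv.choose else 0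

theorem wOf_eq (h : ∀ v, v ≠ r → rk (par v) < rk v) (wt : V → ℝ) {v : V} (hv : v ≠ r) :
    wOf r par wt s(v, par v) = wt v := by
  have hex : ∃ u, u ≠ r ∧ s(v, par v) = s(u, par u) := ⟨v, hv, rfl⟩
  unfold wOf
  rw [dif_pos hex]
  obtain ⟨h1, h2⟩ := hex.choose_spec
  rw [Sym2.eq_iff] at h2
  rcases h2 with ⟨h3, _⟩ | ⟨h3, h4⟩
  · rw [← h3]
  · have h5 := h v hv
    have h6 := h _ h1
    rw [h4] at h5
    rw [← h3] at h6
    omega

theorem wOf_pos {wt : V → ℝ} (hwt : ∀ v, v ≠ r → 0 < wt v) {e : Sym2 V}
    (he : e ∈ (parentGraph r par rk h).edgeSet) : 0 < wOf r par wt e := by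
  have hex : ∃ u, u ≠ r ∧ e = s(u, par u) := by
    induction e using Sym2.ind with
    | _ u v =>
      rw [SimpleGraph.mem_edgeSet, parentGraph_adj] at he
      rcases he with ⟨h1, h2⟩ | ⟨h1, h2⟩
      · exact ⟨u, h1, by rw [h2]⟩
      · exact ⟨v, h1, by rw [h2, Sym2.eq_swap]⟩
  unfold wOf
  rw [dif_pos hex]
  exact hwt _ hex.choose_spec.1

/-- the metric of a rooted tree -/
theorem wt_of_par [Finite V] {wt : V → ℝ} (hwt : ∀ v, v ≠ r → 0 < wt v)
    {D : V → V → ℝ} (h0 : ∀ x, D x x = 0) (hs : ∀ x y, D x y = D y x)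
    (hrec : ∀ x y, x ≠ y → x ≠ r → rk y ≤ rk x → D x y = wt x + D (par x) y) :
    WT (parentGraph r par rk h) (wOf r par wt) D where
  tree := parentGraph_isTree
  pos := fun _ he => wOf_pos hwt he
  path := fun x y p hp => path_metric (fun _ hv => wOf_eq h wt hv) h0 hs hrec _ x y p hp rfl

end Pool.Agent.X239.PCG
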