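import Pool.Agent.X239.PCG.Yes
import Pool.Agent.X239.GP.PolyT
set_option autoImplicit false

/-!
# The instance is computable in polynomial time
-/

namespace Pool.Agent.NPC.X239PCG

open Pool.Agent.Y644.QS Pool.Agent.Y644.QW Pool.Agent.H687R2.LLL Pool.Agent.NPC.H532.RP
  Pool.Agent.NPC.Y644
open Pool.Agent.X239.PCG

variable {α : Type} [TEnc α]

theorem poly_lit {c : α → Cl} {i : α → ℕ} (hc : Poly c) (hi : Poly i) :
    Poly (fun a => lit (c a) (i a)) := by
  unfold lit
  fun_prop

attribute [local fun_prop] poly_lit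

theorem poly_opp {l l' : α → Lit ℕ} (h : Poly l) (h' : Poly l') :
    Poly (fun a => opp (l a) (l' a)) := by
  unfold opp
  fun_prop

attribute [local fun_prop] poly_opp

theorem poly_conf {φ : α → List Cl} {j k i i' : α → ℕ} (hφ : Poly φ) (hj : Poly j) (hk : Poly k)
    (hi : Poly i) (hi' : Poly i') : Poly (fun a => conf (φ a) (j a) (k a) (i a) (i' a)) := by
  unfold conf
  refine Poly.optElim (h := fun a c => ((φ a)[k a]?).elim false fun c' =>
    opp (lit c (i a)) (lit c' (i' a))) (by fun_prop) (by fun_prop) ?_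
  exact Poly.optElim (h := fun (p : α × Cl) c' => opp (lit p.2 (i p.1)) (lit c' (i' p.1)))
    (by fun_prop) (by fun_prop) (by fun_prop)

attribute [local fun_prop] poly_conf

theorem poly_cross {j k i i' : α → ℕ} (hj : Poly j) (hk : Poly k) (hi : Poly i) (hi' : Poly i') :
    Poly (fun a => cross (j a) (k a) (i a) (i' a)) := by
  unfold cross
  refine Poly.flatMap (F := fun a s => (List.range 2).map fun s' =>
    (18 * j a + (2 * i a + s), 18 * k a + (2 * i' a + s'))) (Poly.const _) ?_
  exact Poly.map (F := fun (p : α × ℕ) s' =>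
    (18 * j p.1 + (2 * i p.1 + p.2), 18 * k p.1 + (2 * i' p.1 + s'))) (Poly.const _)
    (by fun_prop)

attribute [local fun_prop] poly_cross

theorem poly_EE {φ : α → List Cl} (hφ : Poly φ) : Poly (fun a => EE (φ a)) := by
  unfold EE
  refine Poly.append ?_ ?_
  · refine Poly.flatMap (F := fun (_ : α) (j : ℕ) => locE.map fun p =>
      (18 * j + p.1, 18 * j + p.2)) (l := fun a => List.range (φ a).length)
      (UPoly.range (by fun_prop)) ?_
    exact Poly.map (F := fun (q : α × ℕ) (p : ℕ × ℕ) => (18 * q.2 + p.1, 18 * q.2 + p.2))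
      (Poly.const _) (by fun_prop)
  · refine Poly.flatMap (F := fun a j => (List.range (φ a).length).flatMap fun k =>
      (List.range 3).flatMap fun i => (List.range 3).flatMap fun i' =>
        if conf (φ a) j k i i' = true then cross j k i i' else []) (UPoly.range (by fun_prop)) ?_
    refine Poly.flatMap (F := fun (p : α × ℕ) k => (List.range 3).flatMap fun i =>
      (List.range 3).flatMap fun i' =>
        if conf (φ p.1) p.2 k i i' = true then cross p.2 k i i' else [])
      (UPoly.range (by fun_prop)) ?_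
    refine Poly.flatMap (F := fun (p : (α × ℕ) × ℕ) i => (List.range 3).flatMap fun i' =>
        if conf (φ p.1.1) p.1.2 p.2 i i' = true then cross p.1.2 p.2 i i' else [])
      (Poly.const _) ?_
    exact Poly.flatMap (F := fun (p : ((α × ℕ) × ℕ) × ℕ) i' =>
        if conf (φ p.1.1.1) p.1.1.2 p.1.2 p.2 i' = true then cross p.1.1.2 p.1.2 p.2 i' else [])
      (Poly.const _) (by fun_prop)

theorem poly_SS {φ : α → List Cl} (hφ : Poly φ) : Poly (fun a => SS (φ a)) := by
  unfold SS
  refine Poly.flatMap (F := fun (_ : α) (j : ℕ) => locS.map fun p =>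
    (18 * j + p.1, 18 * j + p.2)) (l := fun a => List.range (φ a).length)
    (UPoly.range (by fun_prop)) ?_
  exact Poly.map (F := fun (q : α × ℕ) (p : ℕ × ℕ) => (18 * q.2 + p.1, 18 * q.2 + p.2))
    (Poly.const _) (by fun_prop)

theorem poly_inst {φ : α → List Cl} (hφ : Poly φ) :
    Poly (fun a => (nn (φ a), EE (φ a), SS (φ a))) := by
  refine Poly.pair ?_ (Poly.pair (poly_EE hφ) (poly_SS hφ))
  unfold nn
  fun_prop

end Pool.Agent.NPC.X239PCG
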