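import Pool.Agent.X239.PCG.No
import Pool.Agent.X239.PCG.PTree
set_option autoImplicit false

/-!
# From a satisfying assignment to a tree
-/

namespace Pool.Agent.X239.PCG

open Pool.Agent.NPC (Lit Distinct3 Bounded3 SAT3)
open Pool.Agent.H221R2.WTree Pool.Agent.X56

/-- The nodes: the root, one further leaf and the nodes of the clauses. -/
abbrev Nd (m : ℕ) : Type := Option (Option (Fin m × Fin 29))

variable {m : ℕ}

/-- the parent; `sel` is the selected literal of each clause -/
def gpar (sel : Fin m → ℕ) : Nd m → Nd m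
  | none => none
  | some none => none
  | some (some (j, x)) => if h : lp (sel j) x < 29 then some (some (j, ⟨lp (sel j) x, h⟩)) else none

/-- the height -/
def grk : Nd m → ℕ
  | none => 0
  | some none => 1
  | some (some (_, x)) => lr x

/-- the lengths of the edges -/
def gwt (sel : Fin m → ℕ) : Nd m → ℝ
  | none => 1
  | some none => 1
  | some (some (j, x)) => (lw (sel j) x : ℝ)

/-- the distance to the root -/
def rho (sel : Fin m → ℕ) : Nd m → ℝ
  | none => 0
  | some none => 1
  | some (some (j, x)) => (ds (sel j) x 29 : ℝ)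

/-- the distance -/
def gD (sel : Fin m → ℕ) (a b : Nd m) : ℝ :=
  match a, b with
  | some (some (j, x)), some (some (k, y)) =>
      if j = k then (ds (sel j) x y : ℝ) else rho sel (some (some (j, x))) + rho sel (some (some (k, y)))
  | some none, some none => 0
  | a, b => rho sel a + rho sel b

variable {sel : Fin m → ℕ}

theorem gpar_nd (j : Fin m) (x : Fin 29) : gpar sel (some (some (j, x))) =
    if h : lp (sel j) x < 29 then some (some (j, ⟨lp (sel j) x, h⟩)) else none := rfl

theorem gwt_nd (j : Fin m) (x : Fin 29) :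
    gwt sel (some (some (j, x))) = (lw (sel j) x : ℝ) := rfl

theorem grk_nd (j : Fin m) (x : Fin 29) : grk (some (some (j, x))) = lr x := rfl

theorem rho_nd (j : Fin m) (x : Fin 29) :
    rho sel (some (some (j, x))) = (ds (sel j) x 29 : ℝ) := rfl

theorem rho_none : rho sel none = 0 := rfl

theorem grk_lt (hsel : ∀ j, sel j < 3) (v : Nd m) (hv : v ≠ none) :
    grk (gpar sel v) < grk v := by
  match v with
  | none => exact absurd rfl hv
  | some none => simp [gpar, grk]
  | some (some (j, x)) =>
    have h1 := lp_le (sel j) (hsel j) x x.2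
    rw [gpar_nd]
    split_ifs with h
    · exact h1.2
    · have h2 : lp (sel j) x = 29 := by omega
      rw [h2, lr_root] at h1
      exact h1.2

theorem gwt_pos (hsel : ∀ j, sel j < 3) (v : Nd m) (_ : v ≠ none) : 0 < gwt sel v := by
  match v with
  | none => exact one_pos
  | some none => exact one_pos
  | some (some (j, x)) =>
    have := lw_pos (sel j) (hsel j) x x.2
    rw [gwt_nd]
    exact_mod_cast this

theorem gD_self (v : Nd m) : gD sel v v = 0 := by
  match v with
  | none => simp [gD, rho]
  | some none => rfl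
  | some (some (j, x)) =>
    unfold gD
    simp only [if_true]
    rw [ds_self]
    simp

theorem gD_symm (hsel : ∀ j, sel j < 3) (a b : Nd m) : gD sel a b = gD sel b a := by
  match a, b with
  | none, none => rfl
  | none, some none => simp [gD, rho]
  | some none, none => simp [gD, rho]
  | some none, some none => rfl
  | none, some (some (k, y)) => simp only [gD]; ring
  | some none, some (some (k, y)) => simp only [gD]; ring
  | some (some (j, x)), none => simp only [gD]; ring
  | some (some (j, x)), some none => simp only [gD]; ring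
  | some (some (j, x)), some (some (k, y)) =>
    simp only [gD]
    by_cases h : j = k
    · subst h
      rw [if_pos rfl, if_pos rfl, ds_symm _ (hsel j) x (by omega) y (by omega)]
    · rw [if_neg h, if_neg (Ne.symm h), add_comm]

theorem rho_par (hsel : ∀ j, sel j < 3) (j : Fin m) (x : Fin 29) :
    rho sel (some (some (j, x))) =
      gwt sel (some (some (j, x))) + rho sel (gpar sel (some (some (j, x)))) := by
  have h1 := lp_le (sel j) (hsel j) x x.2
  have h2 := ds_rec (sel j) (hsel j) x x.2 29 (by norm_num) (by omega) (by rw [lr_root]; omega)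
  rw [gpar_nd, gwt_nd, rho_nd, h2]
  split_ifs with h
  · rw [rho_nd]
    push_cast
    ring
  · have h3 : lp (sel j) x = 29 := by omega
    rw [h3, ds_self, rho_none]
    push_cast
    ring

theorem gD_rec (hsel : ∀ j, sel j < 3) (a b : Nd m) (hab : a ≠ b) (ha : a ≠ none)
    (hr : grk b ≤ grk a) : gD sel a b = gwt sel a + gD sel (gpar sel a) b := by
  match a, b with
  | none, _ => exact absurd rfl ha
  | some none, none => simp [gD, rho, gwt, gpar]
  | some none, some none => exact absurd rfl hab
  | some none, some (some (k, y)) => simp [gD, rho, gwt, gpar]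
  | some (some (j, x)), none =>
    have h1 := rho_par hsel j x
    have h2 : ∀ c : Nd m, gD sel c none = rho sel c := by
      intro c
      match c with
      | none => simp [gD, rho]
      | some none => simp [gD, rho]
      | some (some (k, y)) => simp [gD, rho]
    rw [h2, h2, h1]
  | some (some (j, x)), some none =>
    have h1 := rho_par hsel j x
    have h2 : gD sel (some (some (j, x))) (some none) = rho sel (some (some (j, x))) + 1 := by
      simp [gD, rho]
    have h3 : gD sel (gpar sel (some (some (j, x)))) (some none) =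
        rho sel (gpar sel (some (some (j, x)))) + 1 := by
      rw [gpar_nd]
      split_ifs with h
      · simp [gD, rho]
      · simp [gD, rho]
    rw [h2, h3, h1]
    ring
  | some (some (j, x)), some (some (k, y)) =>
    by_cases hjk : j = k
    · subst hjk
      have hxy : x ≠ y := fun h => hab (by rw [h])
      have h1 := lp_le (sel j) (hsel j) x x.2
      have h2 := ds_rec (sel j) (hsel j) x x.2 y (by omega) (fun h => hxy (Fin.ext h)) hr
      have h3 : gD sel (some (some (j, x))) (some (some (j, y))) = (ds (sel j) x y : ℝ) := by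
        simp [gD]
      have h4 : gD sel (gpar sel (some (some (j, x)))) (some (some (j, y))) =
          (ds (sel j) (lp (sel j) x) y : ℝ) := by
        rw [gpar_nd]
        split_ifs with h
        · simp [gD]
        · have h5 : lp (sel j) x = 29 := by omega
          rw [h5, ds_symm _ (hsel j) 29 (by norm_num) y (by omega)]
          simp [gD, rho]
      rw [h3, h4, h2, gwt_nd]
      push_cast
      ring
    · have h1 := rho_par hsel j x
      have h3 : gD sel (some (some (j, x))) (some (some (k, y))) =
          rho sel (some (some (j, x))) + rho sel (some (some (k, y))) := by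
        simp only [gD, if_neg hjk]
      have h4 : gD sel (gpar sel (some (some (j, x)))) (some (some (k, y))) =
          rho sel (gpar sel (some (some (j, x)))) + rho sel (some (some (k, y))) := by
        rw [gpar_nd]
        split_ifs with h
        · simp only [gD, if_neg hjk]
        · simp [gD]
      rw [h3, h4, h1]
      ring

/-- the tree -/
def gT (sel : Fin m → ℕ) (hsel : ∀ j, sel j < 3) : SimpleGraph (Nd m) :=
  parentGraph none (gpar sel) grk (grk_lt hsel)

/-- the metric of the tree -/
theorem gT_wt (hsel : ∀ j, sel j < 3) :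
    WT (gT sel hsel) (wOf none (gpar sel) (gwt sel)) (gD sel) :=
  wt_of_par (gwt_pos hsel) gD_self (gD_symm hsel) (gD_rec hsel)

/-- the leaf of a vertex -/
def gleaf (m : ℕ) (v : Fin (18 * m + 1)) : Nd m :=
  if h : (v : ℕ) < 18 * m then some (some (⟨v / 18, by omega⟩, ⟨v % 18, by omega⟩)) else some none

theorem gleaf_eq {j : ℕ} (hj : j < m) {s : ℕ} (hs : s < 18) (h : 18 * j + s < 18 * m + 1) :
    gleaf m ⟨18 * j + s, h⟩ = some (some (⟨j, hj⟩, ⟨s, by omega⟩)) := by
  unfold gleaf
  rw [dif_pos (show 18 * j + s < 18 * m by omega)]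
  have e1 : (18 * j + s) / 18 = j := by omega
  have e2 : (18 * j + s) % 18 = s := by omega
  simp only [e1, e2]

theorem gleaf_inj : Function.Injective (gleaf m) := by
  intro u v h
  unfold gleaf at h
  split_ifs at h with h1 h2 h2
  · simp only [Option.some.injEq, Prod.mk.injEq, Fin.mk.injEq] at h
    ext
    omega
  · simp at h
  · simp at h
  · ext
    omega

theorem leaf_mem {j : Fin m} {x : Fin 29} : (∃ v, gleaf m v = some (some (j, x))) ↔
    (x : ℕ) < 18 := by
  constructor
  · rintro ⟨v, hv⟩
    unfold gleaf at hv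
    split_ifs at hv with h1
    · simp only [Option.some.injEq, Prod.mk.injEq] at hv
      rw [← hv.2]
      simp only
      omega
    · simp at hv
  · intro h
    have hj := j.2
    exact ⟨⟨18 * j + x, by omega⟩, gleaf_eq hj h (by omega)⟩

theorem leaves (hm : 0 < m) (hsel : ∀ j, sel j < 3) (a : Nd m) :
    (∃! b, (gT sel hsel).Adj a b) ↔ ∃ v, gleaf m v = a := by
  have hadj : ∀ a b, (gT sel hsel).Adj a b ↔ (a ≠ none ∧ gpar sel a = b) ∨
      (b ≠ none ∧ gpar sel b = a) := fun a b => parentGraph_adj
  match a with
  | none =>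
    constructor
    · rintro ⟨b, hb, hu⟩
      exfalso
      have h1 : (gT sel hsel).Adj none (some none) := (hadj _ _).2 (Or.inr ⟨by simp, rfl⟩)
      have h2 : (gT sel hsel).Adj none (some (some (⟨0, hm⟩, 18))) := by
        refine (hadj _ _).2 (Or.inr ⟨by simp, ?_⟩)
        rw [gpar_nd]
        have h3 : ¬ lp (sel ⟨0, hm⟩) ((18 : Fin 29) : ℕ) < 29 := by
          have : ((18 : Fin 29) : ℕ) = 18 := rfl
          rw [this]
          simp [lp]
        rw [dif_neg h3]
      have h4 := (hu _ h1).trans (hu _ h2).symm
      simp at h4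
    · rintro ⟨v, hv⟩
      exfalso
      unfold gleaf at hv
      split_ifs at hv
  | some none =>
    constructor
    · intro _
      refine ⟨⟨18 * m, by omega⟩, ?_⟩
      unfold gleaf
      rw [dif_neg (by simp)]
    · intro _
      refine ⟨none, (hadj _ _).2 (Or.inl ⟨by simp, rfl⟩), fun b hb => ?_⟩
      rcases (hadj _ _).1 hb with ⟨_, h1⟩ | ⟨_, h1⟩
      · exact h1.symm
      · exfalso
        match b with
        | none => simp [gpar] at h1
        | some none => simp [gpar] at h1
        | some (some (j, x)) =>
          rw [gpar_nd] at h1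
          split_ifs at h1
          simp at h1
  | some (some (j, x)) =>
    rw [leaf_mem]
    constructor
    · intro h
      by_contra hx
      obtain ⟨y, hy, hyx⟩ := child (sel j) (hsel j) x x.2 (by omega)
      obtain ⟨b, hb, hu⟩ := h
      have h1 : (gT sel hsel).Adj (some (some (j, x))) (gpar sel (some (some (j, x)))) :=
        (hadj _ _).2 (Or.inl ⟨by simp, rfl⟩)
      have h2 : (gT sel hsel).Adj (some (some (j, x))) (some (some (j, ⟨y, hy⟩))) := by
        refine (hadj _ _).2 (Or.inr ⟨by simp, ?_⟩)
        rw [gpar_nd]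
        simp only [hyx]
        rw [dif_pos x.2]
      have h4 := (hu _ h1).trans (hu _ h2).symm
      have h5 := grk_lt hsel (some (some (j, x))) (by simp)
      have h6 := grk_lt hsel (some (some (j, ⟨y, hy⟩))) (by simp)
      have h7 : gpar sel (some (some (j, ⟨y, hy⟩))) = some (some (j, x)) := by
        rw [gpar_nd]
        simp only [hyx]
        rw [dif_pos x.2]
      rw [h4] at h5
      rw [h7] at h6
      omega
    · intro hx
      refine ⟨gpar sel (some (some (j, x))), (hadj _ _).2 (Or.inl ⟨by simp, rfl⟩), fun b hb => ?_⟩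
      rcases (hadj _ _).1 hb with ⟨_, h1⟩ | ⟨_, h1⟩
      · exact h1.symm
      · exfalso
        match b with
        | none => simp [gpar] at h1
        | some none => simp [gpar] at h1
        | some (some (k, y)) =>
          rw [gpar_nd] at h1
          have h2 := lp_ge (sel k) (hsel k) y y.2
          split_ifs at h1
          simp only [Option.some.injEq, Prod.mk.injEq] at h1
          have h3 := congrArg Fin.val h1.2
          simp only at h3
          omega

variable {φ : List Cl}

/-- the positive direction -/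
theorem gen_of_sat (hd : Distinct3 φ) (hφ : φ ≠ []) (h : SAT3 φ) :
    GenPCG (graphOf (nn φ) (EE φ)) (pairsOf (nn φ) (SS φ)) := by
  obtain ⟨τ, hτ⟩ := h
  have hex : ∀ j : Fin φ.length, ∃ i < 3, τ (lit φ[(j : ℕ)] i).2 = (lit φ[(j : ℕ)] i).1 := by
    intro j
    rcases hτ φ[(j : ℕ)] (List.getElem_mem j.2) with h1 | h1 | h1
    · exact ⟨0, by norm_num, h1⟩
    · exact ⟨1, by norm_num, h1⟩
    · exact ⟨2, by norm_num, h1⟩
  choose sel hsel hsat using hex
  have hW := gT_wt hsel
  have hm : 0 < φ.length := List.length_pos_iff.2 hφ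
  refine ⟨Nd φ.length, inferInstance, gT sel hsel, wOf none (gpar sel) (gwt sel),
    gleaf φ.length, 40, 48, ⟨hW.tree, hW.pos, gleaf_inj, leaves hm hsel⟩, by norm_num,
    by norm_num, ?_, ?_⟩
  · have key : ∀ u v : Fin (nn φ), u ≠ v → ((u : ℕ), (v : ℕ)) ∈ EE φ →
        (pcg (gT sel hsel) (wOf none (gpar sel) (gwt sel)) (gleaf φ.length) 40 48).Adj u v := by
      rintro ⟨u, hu⟩ ⟨v, hv⟩ hne huv
      rw [pcg_adj hW]
      refine ⟨hne, ?_⟩
      simp only at huv
      rw [mem_EE] at huv
      rcases huv with ⟨j, hj, p, hp, rfl, rfl⟩ |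
        ⟨j, hj, k, hk, i, hi, i', hi', hc, s, hs, s', hs', rfl, rfl⟩
      · have h1 := locE_lt p hp
        have h2 := ds_locE (sel ⟨j, hj⟩) (hsel _) p hp
        rw [gleaf_eq hj h1.1, gleaf_eq hj h1.2.1]
        simp only [gD, if_true]
        exact ⟨by exact_mod_cast h2.1, by exact_mod_cast h2.2⟩
      · have h1 := conf_ne hd hj hk hi hi' hc
        rw [gleaf_eq hj (s := 2 * i + s) (by omega), gleaf_eq hk (s := 2 * i' + s') (by omega)]
        have h2 : ¬ ((⟨j, hj⟩ : Fin φ.length) = ⟨k, hk⟩) := fun h => h1 (congrArg Fin.val h)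
        simp only [gD, if_neg h2, rho]
        have h3 : ¬ (sel ⟨j, hj⟩ = i ∧ sel ⟨k, hk⟩ = i') := by
          rintro ⟨rfl, rfl⟩
          rw [conf_iff hj hk] at hc
          apply hc.2
          rw [← hsat ⟨j, hj⟩, ← hsat ⟨k, hk⟩]
          exact congrArg τ hc.1
        have a1 := ds_root1 (sel ⟨j, hj⟩) (hsel _) s hs
        have a2 := ds_root2 (sel ⟨j, hj⟩) (hsel _) i hi s hs
        have b1 := ds_root1 (sel ⟨k, hk⟩) (hsel _) s' hs'
        have b2 := ds_root2 (sel ⟨k, hk⟩) (hsel _) i' hi' s' hs'
        have h4 : 40 ≤ ds (sel ⟨j, hj⟩) (2 * i + s) 29 + ds (sel ⟨k, hk⟩) (2 * i' + s') 29 ∧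
            ds (sel ⟨j, hj⟩) (2 * i + s) 29 + ds (sel ⟨k, hk⟩) (2 * i' + s') 29 ≤ 48 := by
          rcases a2 with a2 | a2 <;> rcases b2 with b2 | b2
          · exact absurd ⟨a2.symm, b2.symm⟩ h3
          · have a3 : ds (sel ⟨j, hj⟩) (2 * i + s) 29 = 26 := by rw [a2]; exact a1
            omega
          · have b3 : ds (sel ⟨k, hk⟩) (2 * i' + s') 29 = 26 := by rw [b2]; exact b1
            omega
          · omega
        exact ⟨by exact_mod_cast h4.1, by exact_mod_cast h4.2⟩
    intro u v huv
    unfold graphOf at huv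
    rw [SimpleGraph.fromRel_adj] at huv
    rcases huv.2 with h1 | h1
    · exact key u v huv.1 h1
    · exact (key v u huv.1.symm h1).symm
  · rw [Set.disjoint_left]
    rintro e ⟨⟨u, hu⟩, ⟨v, hv⟩, rfl, huv⟩ he
    rw [SimpleGraph.mem_edgeSet, pcg_adj hW] at he
    simp only at huv
    rw [mem_SS] at huv
    obtain ⟨j, hj, p, hp, rfl, rfl⟩ := huv
    have h1 := locS_lt p hp
    have h2 := ds_locS (sel ⟨j, hj⟩) (hsel _) p hp
    rw [gleaf_eq hj h1.1, gleaf_eq hj h1.2.1] at he
    simp only [gD, if_true] at he
    have h3 : 40 ≤ ds (sel ⟨j, hj⟩) p.1 p.2 := by exact_mod_cast he.2.1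
    have h4 : ds (sel ⟨j, hj⟩) p.1 p.2 ≤ 48 := by exact_mod_cast he.2.2
    omega

end Pool.Agent.X239.PCG
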